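import Pool.Agent.H97.ManesCount

set_option autoImplicit false

namespace Pool.Agent.Results.MP_15eae7_nt.AlmostAllPeriods

open Pool.Agent.H97

theorem mem_exc {b c : ℚ} (hb : b ≠ 0) (hc : c ≠ 0) {H : ℕ} (hH : b.num.natAbs ≤ H)
    {P : Option ℚ} (hP : P ∈ Function.periodicPts (mf b c))
    (hper : Function.minimalPeriod (mf b c) P ∉ ({1, 2} : Finset ℕ)) :
    (b.num, b.den) ∈ excPairs H := by
  rcases exists_cycle b c P hP with h0 | ⟨x, n, hx, hPx⟩
  · exfalso
    apply hper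
    have h1 : Function.IsPeriodicPt (mf b c) 1 P := by
      rw [h0]
      exact mf_none b c
    have h2 := h1.minimalPeriod_dvd
    rw [Nat.dvd_one] at h2
    rw [h2]
    simp
  · have hne : x 1 ^ 2 / c ≠ x 0 ^ 2 / c := by
      intro h1
      apply hper
      rw [hPx]
      exact hx.mem12 (IsCycle.eq_or_neg_of_t hc h1)
    exact (hx.toT hc).mem_excPairs hb hne hH

theorem result : ∀ ε : ℝ, 0 < ε → ∃ C : ℝ, ∀ H : ℕ, 1 ≤ H →
    (Set.ncard {b : ℚ | b ≠ 0 ∧ b.num.natAbs ≤ H ∧ b.den ≤ H ∧ ∃ c : ℚ, c ≠ 0 ∧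
      ∃ p ∈ Function.periodicPts
          (fun q : Option ℚ => Option.bind q (fun x : ℚ => if x = 0 then none else some (b * x + c / x))),
        Function.minimalPeriod
          (fun q : Option ℚ => Option.bind q (fun x : ℚ => if x = 0 then none else some (b * x + c / x))) p
          ∉ ({1, 2} : Finset ℕ)} : ℝ) ≤ C * (H : ℝ) ^ (1 + ε) := by
  intro ε hε
  obtain ⟨C, _, hC⟩ := card_excPairs_le hε
  refine ⟨C, fun H hH => le_trans ?_ (hC H hH)⟩
  rw [← Set.ncard_coe_finset]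
  apply Nat.cast_le.2
  apply Set.ncard_le_ncard_of_injOn (fun b : ℚ => (b.num, b.den))
  · rintro b ⟨hb, hn, _, c, hc, P, hP, hper⟩
    exact Finset.mem_coe.2 (mem_exc hb hc hn hP hper)
  · intro b₁ _ b₂ _ h
    simp only [Prod.mk.injEq] at h
    exact Rat.ext h.1 h.2

end Pool.Agent.Results.MP_15eae7_nt.AlmostAllPeriods
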