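import Pool.Agent.H50.MP.Six

set_option autoImplicit false

namespace Pool.Agent.Results.MP_15eae7_nt.AlmostAllPreperiodic

/-- For all but `C H ^ (1 + ε)` of the nonzero rationals `b` of height at most `H`, the maximum over all nonzero rationals `c` of the number of
preperiodic points of `x ↦ b x + c / x` in the rational projective line is exactly `6`. -/
theorem result : ∀ ε : ℝ, 0 < ε → ∃ C : ℝ, ∀ H : ℕ, 1 ≤ H →
    (Set.ncard {b : ℚ | b ≠ 0 ∧ b.num.natAbs ≤ H ∧ b.den ≤ H ∧
      ¬ IsGreatest {m : ℕ∞ | ∃ c : ℚ, c ≠ 0 ∧ m = Set.encard {P : Option ℚ | (Set.range (fun n : ℕ =>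
          (fun q : Option ℚ => Option.bind q
            (fun x : ℚ => if x = 0 then none else some (b * x + c / x)))^[n] P)).Finite}} 6} : ℝ)
      ≤ C * (H : ℝ) ^ (1 + ε) :=
  Pool.Agent.H50.MP.max_six

end Pool.Agent.Results.MP_15eae7_nt.AlmostAllPreperiodic
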