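import Pool.Agent.H24.FP.SFinal
import Pool.Agent.H24.FP.N2Final

set_option autoImplicit false

namespace Pool.Agent.Results.MP_15eae7_nt.FewPrimes

open Pool.Agent.H97 Pool.Agent.H24.FP

open Classical in
/-- the primes `p` dividing the numerator of `b` at which `-bc` is a `p`-adic square
(at which `bc` has even valuation, if `p = 2`) -/
noncomputable def squarePrimes (b c : ℚ) : Finset ℕ :=
  b.num.natAbs.primeFactors.filter (fun p =>
    (p = 2 ∧ Even (padicValRat 2 (b * c))) ∨
      (p ≠ 2 ∧ ∀ _ : Fact p.Prime, IsSquare ((-(b * c) : ℚ) : ℚ_[p])))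

theorem exists_of_card_le_one {S : Finset ℕ} (h : S.card ≤ 1) : ∃ q, ∀ p ∈ S, p = q := by
  rcases Finset.card_le_one_iff_subset_singleton.1 h with ⟨q, hq⟩
  exact ⟨q, fun p hp => Finset.mem_singleton.1 (hq hp)⟩

theorem result (b c : ℚ) (hb : b ≠ 0) (hc : c ≠ 0) :
    ∀ p ∈ Function.periodicPts
          (fun q : Option ℚ => Option.bind q (fun x : ℚ => if x = 0 then none else some (b * x + c / x))),
        Function.minimalPeriod
          (fun q : Option ℚ => Option.bind q (fun x : ℚ => if x = 0 then none else some (b * x + c / x))) p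
          ≤ 8 ^ (1 + min (squarePrimes b c).card (2 * b).den.primeFactors.card) ∧
        ((squarePrimes b c).card ≤ 1 ∨ b.num.natAbs.primeFactors.card ≤ 2 ∨
            (2 * b).den.primeFactors.card ≤ 1 →
          Function.minimalPeriod
          (fun q : Option ℚ => Option.bind q (fun x : ℚ => if x = 0 then none else some (b * x + c / x))) p
          ∈ ({1, 2, 4} : Finset ℕ)) := by
  classical
  intro P hP
  change P ∈ Function.periodicPts (mf b c) at hP
  change Function.minimalPeriod (mf b c) P ≤
      8 ^ (1 + min (squarePrimes b c).card (2 * b).den.primeFactors.card) ∧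
    ((squarePrimes b c).card ≤ 1 ∨ b.num.natAbs.primeFactors.card ≤ 2 ∨
        (2 * b).den.primeFactors.card ≤ 1 →
      Function.minimalPeriod (mf b c) P ∈ ({1, 2, 4} : Finset ℕ))
  rcases exists_cycle b c P hP with h0 | ⟨x, n, hx, hPx⟩
  · have h1 : Function.IsPeriodicPt (mf b c) 1 none := mf_none b c
    have h2 := h1.minimalPeriod_dvd
    rw [Nat.dvd_one] at h2
    rw [h0, h2]
    have h3 : 1 ≤ 8 ^ (1 + min (squarePrimes b c).card (2 * b).den.primeFactors.card) :=
      Nat.one_le_pow _ _ (by norm_num)
    exact ⟨h3, fun _ => by simp⟩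
  · rw [hPx]
    refine ⟨?_, fun hk1 => ?_⟩
    · rcases le_total (squarePrimes b c).card (2 * b).den.primeFactors.card with hk | hk
      · rw [min_eq_left hk, add_comm]
        apply bound_runs hx hb hc
        apply Finset.card_le_card
        intro l hl
        exact Finset.mem_filter.2 (M.sqAt_of_run hb hc hx hl)
      · rw [min_eq_right hk, add_comm, pow_succ]
        have h4 := bound_den hx hb hc (k := (2 * b).den.primeFactors.card) le_rfl
        omega
    · rcases hk1 with hk1 | hk1 | hk1
      · obtain ⟨q, hq⟩ := exists_of_card_le_one hk1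
        exact M.mem_of_square_num hb hc hx q
          fun l hl h => hq l (Finset.mem_filter.2 ⟨hl, h⟩)
      · exact mem124_of_num hb hc hx hk1
      · obtain ⟨q, m, hq, hden⟩ := exists_prime_pow (n := (2 * b).den) (Rat.den_nz _) hk1
        exact mem124_of_den hc hx hq hden

end Pool.Agent.Results.MP_15eae7_nt.FewPrimes
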