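import Pool.Agent.H97.ManesGlobal
import Pool.Agent.H97.ManesEight
import Pool.Agent.H24.FP.Square
import Pool.Agent.H24.FP.Place3

set_option autoImplicit false

namespace Pool.Agent.Results.MP_15eae7_nt.LocalConditions

open Pool.Agent.H97

theorem norm_of_val {p : ℕ} [hp : Fact p.Prime] {b : ℚ} (hb : b ≠ 0) {k : ℤ}
    (h : padicValRat p b = k) : padicNorm p b = (p : ℚ) ^ (-k) := by
  rw [padicNorm.eq_zpow_of_nonzero hb, h]

theorem none_case {b c : ℚ} {S : Finset ℕ} (hS : 1 ∈ S) :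
    Function.minimalPeriod (mf b c) none ∈ S := by
  have h1 : Function.IsPeriodicPt (mf b c) 1 none := mf_none b c
  have h2 := h1.minimalPeriod_dvd
  rw [Nat.dvd_one] at h2
  rw [h2]
  exact hS

theorem one_lt_norm_of_den {p : ℕ} [hp : Fact p.Prime] {x : ℚ} (h : p ∣ x.den) :
    1 < padicNorm p x := by
  have h1 : padicNorm p (x.den : ℚ) < 1 := (padicNorm.nat_lt_one_iff x.den).2 h
  have h2 : padicNorm p (x.num : ℚ) = 1 := by
    rw [padicNorm.int_eq_one_iff]
    intro hd
    have h3 : p ∣ x.num.natAbs := Int.natCast_dvd.1 hd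
    have h4 := Nat.dvd_gcd h3 h
    rw [x.reduced] at h4
    exact hp.out.one_lt.not_ge (Nat.le_of_dvd one_pos h4)
  have h3 : padicNorm p x * padicNorm p (x.den : ℚ) = 1 := by
    rw [← padicNorm.mul, Rat.mul_den_eq_num, h2]
  have h4 : 0 ≤ padicNorm p (x.den : ℚ) := padicNorm.nonneg _
  have h5 : 0 ≤ padicNorm p x := padicNorm.nonneg _
  by_contra hcon
  push Not at hcon
  nlinarith

theorem result (b c : ℚ) (hb : b ≠ 0) (hc : c ≠ 0)
    (h : 0 < b * c ∨ padicValRat 2 b = 0 ∨ padicValRat 2 b = -1 ∨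
      padicValRat 3 b = 0 ∨ padicValRat 5 b = 0 ∨
      ((2 * b).den : ℚ) ^ 2 < (|2 * b| - 1) ^ 3 ∨
      10 * 8 ^ b.num.natAbs.primeFactors.card * b.num.natAbs ^ 4 < b.den ∨
      (∃ p : ℕ, p.Prime ∧ |((2 * b).num : ℚ)| + 2 * (2 * b).den < padicNorm p (2 * b) ^ 2) ∨
      (∃ p : ℕ, p.Prime ∧ (|((2 * b).num : ℚ)| + 2 * (2 * b).den) ^ 2 *
        (2 * |((2 * b).num : ℚ)| + 5 * (2 * b).den) < (2 * b).den * padicNorm p (2 * b) ^ 5) ∨
      ∃ (p : ℕ) (_hp : Fact p.Prime), p ∣ (4 * b).den ∧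
        ¬ IsSquare ((-(b * c) : ℚ) : ℚ_[p])) :
    ∀ p ∈ Function.periodicPts
        (fun q : Option ℚ => Option.bind q (fun x : ℚ => if x = 0 then none else some (b * x + c / x))),
      Function.minimalPeriod
        (fun q : Option ℚ => Option.bind q (fun x : ℚ => if x = 0 then none else some (b * x + c / x))) p
        ∈ ({1, 2, 4} : Finset ℕ) := by
  have h2p : Fact (Nat.Prime 2) := ⟨Nat.prime_two⟩
  have h3p : Fact (Nat.Prime 3) := ⟨Nat.prime_three⟩
  have h5p : Fact (Nat.Prime 5) := ⟨Nat.prime_five⟩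
  intro P hP
  change P ∈ Function.periodicPts (mf b c) at hP
  change Function.minimalPeriod (mf b c) P ∈ ({1, 2, 4} : Finset ℕ)
  rcases exists_cycle b c P hP with h0 | ⟨x, n, hx, hPx⟩
  · rw [h0]
    exact none_case (by simp)
  · rw [hPx]
    have hT := hx.toT hc
    have hup : ∀ m : ℕ, m ∈ ({1, 2} : Finset ℕ) → m ∈ ({1, 2, 4} : Finset ℕ) := by
      intro m hm
      simp only [Finset.mem_insert, Finset.mem_singleton] at hm ⊢
      omega
    rcases h with h | h | h | h | h | h | h | h | h | ⟨p, hp, hpd, hsq⟩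
    · exact hup _ (hx.mem12 (hx.real h))
    · apply hup
      apply hx.mem12
      apply IsCycle.eq_or_neg_of_t hc
      exact hT.fixed_of_two_unit (by rw [norm_of_val hb h]; norm_num)
    · apply hup
      apply hx.mem12
      apply IsCycle.eq_or_neg_of_t hc
      exact hT.fixed_of_two_two (by rw [norm_of_val hb h]; norm_num)
    · apply hup
      apply hx.mem12
      apply IsCycle.eq_or_neg_of_t hc
      exact hT.fixed_of_three_unit (by rw [norm_of_val hb h]; norm_num)
    · apply hx.mem124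
      have h4 := hT.four_of_five_unit (by rw [norm_of_val hb h]; norm_num)
      rcases IsCycle.eq_or_neg_of_t hc h4 with h5 | h5
      · exact h5
      · exact (hx.not_neg_four hb h5).elim
    · exact Pool.Agent.H24.FP.M.mem_of_large3 hb hc hx h
    · exact Pool.Agent.H24.FP.M.mem_of_small hb hc hx h
    · exact hup _ (Pool.Agent.H24.FP.M.mem_of_prime hb hc hx h)
    · exact Pool.Agent.H24.FP.M.mem_of_prime5 hb hc hx h
    · exact (Pool.Agent.H24.FP.M.no_cycle_of_pole hb hc hx (one_lt_norm_of_den hpd) hsq).elim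

end Pool.Agent.Results.MP_15eae7_nt.LocalConditions
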